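import Mathlib
import Pool.Agent.R849.SV.Arb

/-!
# Restriction of the valuations to a set of primes, and independent choices
-/

set_option autoImplicit false

namespace Pool.Agent.K3h46.SS

open Finset Pool.Agent.Y359.PE Pool.Agent.R849.SV Pool.Agent.R849.RF
open scoped Classical

/-- the part of `a` composed of the primes of `P`, with the sign of `a` -/
noncomputable def ph (P : Finset ℕ) (a : ℤ) : ℤ := a.sign * ((∏ p ∈ P, p ^ fa a p : ℕ) : ℤ)

lemma prod_pos {P : Finset ℕ} (hP : ∀ p ∈ P, p.Prime) (a : ℤ) :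
    0 < ∏ p ∈ P, p ^ fa a p := Finset.prod_pos fun p hp => pow_pos (hP p hp).pos _

lemma ph_ne_zero {P : Finset ℕ} (hP : ∀ p ∈ P, p.Prime) {a : ℤ} (ha : a ≠ 0) : ph P a ≠ 0 := by
  unfold ph
  refine mul_ne_zero (by rwa [Ne, Int.sign_eq_zero_iff_zero]) ?_
  exact_mod_cast (prod_pos hP a).ne'

lemma ph_pos {P : Finset ℕ} (hP : ∀ p ∈ P, p.Prime) (a : ℤ) : 0 < ph P a ↔ 0 < a := by
  have h : (0 : ℤ) < ((∏ p ∈ P, p ^ fa a p : ℕ) : ℤ) := by exact_mod_cast prod_pos hP a
  unfold ph
  rw [mul_pos_iff_of_pos_right h, Int.sign_pos_iff]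

lemma natAbs_ph {P : Finset ℕ} {a : ℤ} (ha : a ≠ 0) :
    (ph P a).natAbs = ∏ p ∈ P, p ^ fa a p := by
  unfold ph
  rw [Int.natAbs_mul, Int.natAbs_sign_of_ne_zero ha, Int.natAbs_natCast, one_mul]

lemma fa_ph {P : Finset ℕ} (hP : ∀ p ∈ P, p.Prime) {a : ℤ} (ha : a ≠ 0) (q : ℕ) :
    fa (ph P a) q = if q ∈ P then fa a q else 0 := by
  have h1 : fa (ph P a) q = (∏ p ∈ P, p ^ fa a p).factorization q := by
    unfold fa
    rw [natAbs_ph ha]
    rfl
  rw [h1, Nat.factorization_prod fun p hp => pow_ne_zero _ (hP p hp).ne_zero,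
    Finsupp.finsetSum_apply]
  have h2 : ∀ p ∈ P, (p ^ fa a p).factorization q = if p = q then fa a q else 0 := by
    intro p hp
    rw [Nat.factorization_pow, Finsupp.smul_apply, (hP p hp).factorization, Finsupp.single_apply]
    split_ifs with h
    · rw [h]; simp
    · simp
  rw [sum_congr rfl h2, sum_ite_eq']

lemma ph_mul {P : Finset ℕ} {a b : ℤ} (ha : a ≠ 0) (hb : b ≠ 0) :
    ph P (a * b) = ph P a * ph P b := by
  unfold ph
  rw [Int.sign_mul]
  have h1 : ∏ p ∈ P, p ^ fa (a * b) p = (∏ p ∈ P, p ^ fa a p) * ∏ p ∈ P, p ^ fa b p := by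
    rw [← prod_mul_distrib]
    refine prod_congr rfl fun p _ => ?_
    rw [fa_mul ha hb, pow_add]
  rw [h1]
  push_cast
  ring

lemma ph_one (P : Finset ℕ) : ph P 1 = 1 := by
  unfold ph fa
  simp

lemma ph_prod {P : Finset ℕ} {k : ℕ} (f : Fin k → ℤ) (hf : ∀ i, f i ≠ 0) :
    ph P (∏ i, f i) = ∏ i, ph P (f i) := by
  induction k with
  | zero => simp [ph_one]
  | succ k ih =>
    rw [Fin.prod_univ_succ, Fin.prod_univ_succ,
      ph_mul (hf 0) (prod_ne_zero_iff.2 fun i _ => hf _), ih _ fun i => hf _]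

lemma card_pk_ph (P : Finset ℕ) (k : ℕ) {B : Finset ℤ} (h0 : (0 : ℤ) ∉ B) :
    (pk k (B.image (ph P))).card ≤ (pk k B).card := by
  have h1 : pk k (B.image (ph P)) ⊆ (pk k B).image (ph P) := by
    intro v hv
    obtain ⟨f, hf, rfl⟩ := mem_image.1 hv
    rw [Fintype.mem_piFinset] at hf
    choose g hg hgf using fun i => mem_image.1 (hf i)
    have hg0 : ∀ i, g i ≠ 0 := fun i h => h0 (h ▸ hg i)
    refine mem_image.2 ⟨∏ i, g i, mem_image_of_mem _ (Fintype.mem_piFinset.2 hg), ?_⟩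
    rw [ph_prod g hg0]
    exact prod_congr rfl fun i _ => hgf i
  exact (card_le_card h1).trans card_image_le

/-- a prime whose exponents in `x` and `y` differ, if there is one -/
noncomputable def dp (x y : ℤ) : ℕ := if h : ∃ p, fa x p ≠ fa y p then h.choose else 2

lemma dp_prime (x y : ℤ) : (dp x y).Prime := by
  unfold dp
  split_ifs with h
  · by_contra hp
    have h0 : ∀ a : ℤ, fa a h.choose = 0 := fun a => by
      unfold fa
      exact Nat.factorization_eq_zero_of_not_prime _ hp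
    exact h.choose_spec ((h0 x).trans (h0 y).symm)
  · exact Nat.prime_two

/-- distinguishing primes -/
noncomputable def dps (X : Finset ℤ) : Finset ℕ := (X ×ˢ X).image fun s => dp s.1 s.2

lemma dps_prime {X : Finset ℤ} : ∀ p ∈ dps X, p.Prime := by
  intro p hp
  obtain ⟨s, -, rfl⟩ := mem_image.1 hp
  exact dp_prime _ _

lemma card_dps (X : Finset ℤ) : (dps X).card ≤ X.card ^ 2 := by
  refine card_image_le.trans (le_of_eq ?_)
  rw [card_product, sq]

lemma ph_injOn {X : Finset ℤ} (h0 : (0 : ℤ) ∉ X) : Set.InjOn (ph (dps X)) X := by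
  intro x hx y hy hxy
  have hx' : x ∈ X := hx
  have hy' : y ∈ X := hy
  have hx0 : x ≠ 0 := fun h => h0 (h ▸ hx')
  have hy0 : y ≠ 0 := fun h => h0 (h ▸ hy')
  have hs : 0 < x ↔ 0 < y := by
    rw [← ph_pos dps_prime x, ← ph_pos dps_prime y, hxy]
  refine eq_of_fa hx0 hy0 hs fun p => ?_
  by_contra hp
  have h1 : ∃ p, fa x p ≠ fa y p := ⟨p, hp⟩
  have h2 : fa x (dp x y) ≠ fa y (dp x y) := by
    unfold dp
    rw [dif_pos h1]
    exact h1.choose_spec
  have h3 : dp x y ∈ dps X := mem_image.2 ⟨(x, y), mem_product.2 ⟨hx', hy'⟩, rfl⟩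
  apply h2
  have h4 := fa_ph (dps_prime (X := X)) hx0 (dp x y)
  have h5 := fa_ph (dps_prime (X := X)) hy0 (dp x y)
  rw [if_pos h3] at h4 h5
  rw [← h4, ← h5, hxy]

/-! ### Independent choices -/

/-- the number of choices that fall into the exceptional sets for more than `δ |I|` indices of `I` -/
lemma card_often {ι : Type} [Fintype ι] (W : ι → Finset ℤ) (I : Finset ι) (D : ι → Finset ℤ)
    {H : ℕ} (hH : 1 ≤ H) (hD : ∀ i ∈ I, (W i ∩ D i).card ≤ 1) (hW : ∀ i ∈ I, H ≤ (W i).card)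
    {δ : ℝ} :
    (((Fintype.piFinset W).filter fun b =>
      δ * I.card < ((I.filter fun i => b i ∈ D i).card : ℝ)).card : ℝ) *
        ((1 + H : ℝ) ^ δ) ^ I.card ≤ 2 ^ I.card * ∏ i, ((W i).card : ℝ) := by
  have hH0 : (0:ℝ) < H := by exact_mod_cast hH
  -- the weight
  set g : ι → ℤ → ℝ := fun i x => if i ∈ I ∧ x ∈ D i then 1 + H else 1 with hg
  have hg1 : ∀ i x, 1 ≤ g i x := by
    intro i x
    simp only [hg]
    split_ifs <;> linarith
  have hprod : ∀ b : ι → ℤ, ∏ i, g i (b i) =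
      (1 + H : ℝ) ^ ((I.filter fun i => b i ∈ D i).card) := by
    intro b
    have e1 : ∏ i, g i (b i) = ∏ i ∈ univ.filter (fun i => i ∈ I ∧ b i ∈ D i), (1 + H : ℝ) := by
      rw [Finset.prod_filter]
    rw [e1, prod_const]
    congr 2
    ext i
    simp
  have h1 : ∑ b ∈ Fintype.piFinset W, ∏ i, g i (b i) = ∏ i, ∑ x ∈ W i, g i x :=
    (Finset.prod_univ_sum W g).symm
  have h2 : ∏ i, ∑ x ∈ W i, g i x ≤ 2 ^ I.card * ∏ i, ((W i).card : ℝ) := by
    have e2 : (2:ℝ) ^ I.card * ∏ i, ((W i).card : ℝ) =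
        ∏ i, ((if i ∈ I then 2 else 1) * ((W i).card : ℝ)) := by
      rw [prod_mul_distrib]
      congr 1
      rw [prod_ite_mem, univ_inter, prod_const]
    rw [e2]
    refine prod_le_prod (fun i _ => sum_nonneg fun x _ => by linarith [hg1 i x]) fun i _ => ?_
    by_cases hi : i ∈ I
    · rw [if_pos hi]
      have e3 : ∑ x ∈ W i, g i x = (W i).card + H * ((W i ∩ D i).card : ℝ) := by
        have e4 : ∀ x, g i x = 1 + (if x ∈ D i then (H:ℝ) else 0) := by
          intro x
          simp only [hg, hi, true_and]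
          split_ifs <;> ring
        simp only [e4]
        rw [sum_add_distrib, sum_const, nsmul_eq_mul, mul_one, ← sum_filter, sum_const,
          nsmul_eq_mul, filter_mem_eq_inter]
        ring
      rw [e3]
      have h3 : ((W i ∩ D i).card : ℝ) ≤ 1 := by exact_mod_cast hD i hi
      have h4 : (H:ℝ) ≤ (W i).card := by exact_mod_cast hW i hi
      nlinarith
    · rw [if_neg hi, one_mul]
      have e4 : ∀ x, g i x = 1 := by
        intro x
        simp only [hg, hi, false_and, if_false]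
      simp only [e4]
      rw [sum_const, nsmul_eq_mul, mul_one]
  have h3 : (((Fintype.piFinset W).filter fun b =>
      δ * I.card < ((I.filter fun i => b i ∈ D i).card : ℝ)).card : ℝ) *
        ((1 + H : ℝ) ^ δ) ^ I.card ≤ ∑ b ∈ Fintype.piFinset W, ∏ i, g i (b i) := by
    calc _ = ∑ b ∈ (Fintype.piFinset W).filter fun b =>
          δ * I.card < ((I.filter fun i => b i ∈ D i).card : ℝ), ((1 + H : ℝ) ^ δ) ^ I.card := by
          rw [sum_const, nsmul_eq_mul]
      _ ≤ ∑ b ∈ (Fintype.piFinset W).filter fun b =>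
          δ * I.card < ((I.filter fun i => b i ∈ D i).card : ℝ), ∏ i, g i (b i) := by
          refine sum_le_sum fun b hb => ?_
          have hb2 := (mem_filter.1 hb).2
          rw [hprod, ← Real.rpow_natCast, ← Real.rpow_natCast, ← Real.rpow_mul (by positivity)]
          exact Real.rpow_le_rpow_of_exponent_le (by linarith) hb2.le
      _ ≤ _ := by
          refine sum_le_sum_of_subset_of_nonneg (filter_subset _ _) fun b _ _ => ?_
          exact prod_nonneg fun i _ => by linarith [hg1 i (b i)]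
  linarith

end Pool.Agent.K3h46.SS
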