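import Mathlib
import Pool.Agent.K3h46.SS.Base

/-!
# Random transversals of clusters
-/

set_option autoImplicit false

namespace Pool.Agent.K3h46.SS

open Finset Pool.Agent.Y359.PE Pool.Agent.R849.SV Pool.Agent.R849.RF
open scoped Classical

/-- the elements with a large power of `p` -/
noncomputable def big (m p : ℕ) (W : Finset ℤ) : Finset ℤ := W.filter fun x => m ≤ p ^ fa x p

lemma pow_fa_dvd (x : ℤ) (p : ℕ) : ((p ^ fa x p : ℕ) : ℤ) ∣ x := by
  rw [Int.natCast_dvd]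
  exact Nat.ordProj_dvd _ _

lemma card_big {m w : ℕ} (hm : w < m) (p : ℕ) {W : Finset ℤ}
    (hW : ∀ x ∈ W, ∀ y ∈ W, |x - y| ≤ (w : ℤ)) : (W ∩ big m p W).card ≤ 1 := by
  refine card_le_one.2 fun x hx y hy => ?_
  have hx1 := (mem_inter.1 hx).1
  have hy1 := (mem_inter.1 hy).1
  have hx2 : m ≤ p ^ fa x p := (mem_filter.1 (mem_inter.1 hx).2).2
  have hy2 : m ≤ p ^ fa y p := (mem_filter.1 (mem_inter.1 hy).2).2
  by_contra hne
  have key : ∀ u v : ℤ, u ≠ v → |u - v| ≤ (w : ℤ) → m ≤ p ^ fa u p →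
      fa u p ≤ fa v p → False := by
    intro u v huv hw hu huv2
    have h1 : ((p ^ fa u p : ℕ) : ℤ) ∣ u := pow_fa_dvd u p
    have h2 : ((p ^ fa u p : ℕ) : ℤ) ∣ v :=
      (Int.natCast_dvd_natCast.2 (pow_dvd_pow p huv2)).trans (pow_fa_dvd v p)
    have h3 := Int.le_of_dvd (abs_pos.2 (sub_ne_zero.2 huv)) ((dvd_abs _ _).2 (dvd_sub h1 h2))
    have h4 : ((p ^ fa u p : ℕ) : ℤ) ≤ w := h3.trans hw
    have h5 : p ^ fa u p ≤ w := by exact_mod_cast h4
    omega
  rcases le_total (fa x p) (fa y p) with h | h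
  · exact key x y hne (hW x hx1 y hy1) hx2 h
  · exact key y x (Ne.symm hne) (hW y hy1 x hx1) hy2 h

lemma card_diam {w : ℕ} {W : Finset ℤ} (hW : ∀ x ∈ W, ∀ y ∈ W, |x - y| ≤ (w : ℤ)) :
    W.card ≤ w + 1 := by
  rcases W.eq_empty_or_nonempty with h | h
  · rw [h]; simp
  · obtain ⟨z, hz, hmin⟩ := W.exists_min_image id h
    have h1 : W ⊆ Icc z (z + w) := by
      intro x hx
      have h2 := hmin x hx
      have h3 := hW x hx z hz
      simp only [id] at h2
      rw [mem_Icc]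
      exact ⟨h2, by have := le_abs_self (x - z); omega⟩
    refine (card_le_card h1).trans ?_
    rw [Int.card_Icc]
    omega

/-- the good choices -/
def Good (ε c : ℝ) (N : ℕ) (B : Finset ℤ) : Prop :=
  ∀ A : Finset ℂ, A.Nonempty → (0 : ℂ) ∉ A → c * ((A.card : ℝ) * N) ^ (1 - ε) ≤ (AB A B).card

/-- the deterministic part -/
theorem good_of_rare {ε : ℝ} (hε : 0 < ε) (hε1 : ε ≤ 1) : ∃ δ : ℝ, 0 < δ ∧ ∀ m : ℕ, 2 ≤ m →
    ∃ c : ℝ, 0 < c ∧ ∀ (ι : Type) (I : Finset ι) (X : Finset ℤ) (b : ι → ℤ), I.Nonempty →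
      (0 : ℤ) ∉ X → (∀ i ∈ I, b i ∈ X) → Set.InjOn b I →
      (∀ p ∈ dps X, ((I.filter fun i => m ≤ p ^ fa (b i) p).card : ℝ) ≤ δ * I.card) →
      Good ε c I.card (I.image b) := by
  obtain ⟨δ, hδ, h⟩ := spread_all ⌈1 / ε⌉₊ (ceil_ok hε) ε hε hε1
  refine ⟨δ, hδ, fun m hm => ?_⟩
  obtain ⟨c0, hc0, h⟩ := h m
  refine ⟨(c0 / 2) ^ (1 / (⌈1 / ε⌉₊ : ℝ)), by positivity, ?_⟩
  intro ι I X b hI h0 hbX hinj hrare A hA hA0
  have hBX : I.image b ⊆ X := by
    intro z hz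
    obtain ⟨i, hi, rfl⟩ := mem_image.1 hz
    exact hbX i hi
  have hB0 : (0 : ℤ) ∉ I.image b := fun h => h0 (hBX h)
  have hcB : (I.image b).card = I.card := card_image_of_injOn hinj
  set B' := (I.image b).image (ph (dps X)) with hB'
  have hcB' : B'.card = I.card := by
    rw [hB', card_image_of_injOn, hcB]
    exact (ph_injOn h0).mono (by exact_mod_cast hBX)
  have hne : (I.image b).Nonempty := hI.image b
  have h0' : (0 : ℤ) ∉ B' := by
    intro hz
    obtain ⟨x, hx, hx2⟩ := mem_image.1 hz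
    exact ph_ne_zero dps_prime (fun h => hB0 (h ▸ hx)) hx2
  have h1 := h B' (hne.image _) h0' (fun _ => 0) (fun p hp => by
    by_cases hpX : p ∈ dps X
    · rw [hcB']
      refine le_trans ?_ (hrare p hpX)
      have h2 : (B'.filter fun a => m ≤ p ^ ((fa a p : ℤ) - ((0:ℕ) : ℤ)).natAbs) ⊆
          (I.filter fun i => m ≤ p ^ fa (b i) p).image fun i => ph (dps X) (b i) := by
        intro a ha
        obtain ⟨ha1, ha2⟩ := mem_filter.1 ha
        obtain ⟨z, hz, hz2⟩ := mem_image.1 ha1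
        obtain ⟨i, hi, rfl⟩ := mem_image.1 hz
        refine mem_image.2 ⟨i, mem_filter.2 ⟨hi, ?_⟩, hz2⟩
        rw [← hz2, fa_ph dps_prime (fun h => hB0 (h ▸ hz)), if_pos hpX] at ha2
        simpa using ha2
      exact_mod_cast (card_le_card h2).trans card_image_le
    · have h2 : (B'.filter fun a => m ≤ p ^ ((fa a p : ℤ) - ((0:ℕ) : ℤ)).natAbs) = ∅ := by
        rw [filter_eq_empty_iff]
        intro a ha
        obtain ⟨z, hz, hz2⟩ := mem_image.1 ha
        rw [← hz2, fa_ph dps_prime (fun h => hB0 (h ▸ hz)), if_neg hpX]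
        simp
        omega
      rw [h2]
      simp
      positivity)
  have h2 : c0 * ((I.card : ℕ) : ℝ) ^ ((⌈1 / ε⌉₊ : ℝ) - ε) ≤ (pk ⌈1 / ε⌉₊ (I.image b)).card := by
    rw [hcB'] at h1
    refine h1.trans ?_
    exact_mod_cast card_pk_ph (dps X) _ hB0
  have hI1 : (1 : ℝ) ≤ (I.card : ℝ) := by exact_mod_cast card_pos.2 hI
  exact arbM hε hε1 hc0 hI1 _ (Nat.le_ceil _) (I.image b) (exists_ne_zero hne hB0) h2 A hA hA0

theorem final_ineq {d x w N P : ℝ} (hd : 0 ≤ d) (hx : 0 ≤ x) (hw : 0 ≤ w) (hN : 0 ≤ N)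
    (hP : 0 ≤ P) (h1 : d ≤ x ^ 2) (h2 : x ≤ (w + 1) * N) :
    d * (Real.exp (-(2 * N)) * P) ≤ 2 * (w + 1) ^ 2 * Real.exp (-N) * P := by
  have h3 : N ^ 2 ≤ 2 * Real.exp N := by
    have := Real.pow_div_factorial_le_exp N hN 2
    norm_num at this
    linarith
  have h4 : d ≤ ((w + 1) * N) ^ 2 := h1.trans (pow_le_pow_left₀ hx h2 2)
  have h5 : 0 ≤ Real.exp (-(2 * N)) * P := by positivity
  calc d * (Real.exp (-(2 * N)) * P) ≤ ((w + 1) * N) ^ 2 * (Real.exp (-(2 * N)) * P) :=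
        mul_le_mul_of_nonneg_right h4 h5
    _ = N ^ 2 * ((w + 1) ^ 2 * (Real.exp (-(2 * N)) * P)) := by ring
    _ ≤ (2 * Real.exp N) * ((w + 1) ^ 2 * (Real.exp (-(2 * N)) * P)) :=
        mul_le_mul_of_nonneg_right h3 (by positivity)
    _ = 2 * (w + 1) ^ 2 * (Real.exp N * Real.exp (-(2 * N))) * P := by ring
    _ = _ := by
        rw [← Real.exp_add]
        have : N + -(2 * N) = -N := by ring
        rw [this]

/-- **Random transversals.** -/
theorem core {ε : ℝ} (hε : 0 < ε) (hε1 : ε ≤ 1) : ∃ H : ℕ, 1 ≤ H ∧ ∀ w : ℕ,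
    ∃ c : ℝ, 0 < c ∧ ∃ C : ℝ, 0 < C ∧ ∀ (ι : Type) [Fintype ι] (I : Finset ι) (W : ι → Finset ℤ),
      I.Nonempty → (∀ i ∈ I, H ≤ (W i).card ∧ (0 : ℤ) ∉ W i ∧
        ∀ x ∈ W i, ∀ y ∈ W i, |x - y| ≤ (w : ℤ)) →
      (∀ i ∈ I, ∀ j ∈ I, i ≠ j → Disjoint (W i) (W j)) →
      (((Fintype.piFinset W).filter fun b => ¬ Good ε c I.card (I.image b)).card : ℝ) ≤
        C * Real.exp (-(I.card : ℝ)) * ∏ i, ((W i).card : ℝ) := by
  obtain ⟨δ, hδ, h⟩ := good_of_rare hε hε1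
  set H : ℕ := ⌈(2 * Real.exp 2) ^ (1 / δ)⌉₊ + 1 with hH
  have hH1 : 1 ≤ H := by omega
  have hHδ : 2 * Real.exp 2 ≤ (1 + H : ℝ) ^ δ := by
    have h1 : (2 * Real.exp 2) ^ (1 / δ) ≤ 1 + (H : ℝ) := by
      have := Nat.le_ceil ((2 * Real.exp 2) ^ (1 / δ))
      rw [hH]
      push_cast
      linarith
    calc 2 * Real.exp 2 = ((2 * Real.exp 2) ^ (1 / δ)) ^ δ := by
          rw [← Real.rpow_mul (by positivity)]
          have : 1 / δ * δ = 1 := by field_simp
          rw [this, Real.rpow_one]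
      _ ≤ _ := Real.rpow_le_rpow (by positivity) h1 hδ.le
  refine ⟨H, hH1, fun w => ?_⟩
  obtain ⟨c, hc, h⟩ := h (w + 2) (by omega)
  refine ⟨c, hc, 2 * ((w : ℝ) + 1) ^ 2, by positivity, ?_⟩
  intro ι _ I W hI hW hdis
  set X : Finset ℤ := I.biUnion W with hX
  have h0 : (0 : ℤ) ∉ X := by
    intro hz
    obtain ⟨i, hi, hz2⟩ := mem_biUnion.1 hz
    exact (hW i hi).2.1 hz2
  set P : ℝ := ∏ i, ((W i).card : ℝ) with hP
  have hP0 : 0 ≤ P := prod_nonneg fun i _ => Nat.cast_nonneg _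
  set bad : ℕ → Finset (ι → ℤ) := fun p => (Fintype.piFinset W).filter fun b =>
    δ * I.card < ((I.filter fun i => b i ∈ big (w + 2) p (W i)).card : ℝ) with hbad
  have hsub : ((Fintype.piFinset W).filter fun b => ¬ Good ε c I.card (I.image b)) ⊆
      (dps X).biUnion bad := by
    intro b hb
    obtain ⟨hb1, hb2⟩ := mem_filter.1 hb
    rw [Fintype.mem_piFinset] at hb1
    by_contra hcon
    apply hb2
    refine h ι I X b hI h0 (fun i hi => mem_biUnion.2 ⟨i, hi, hb1 i⟩) ?_ ?_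
    · intro i hi j hj hij
      by_contra hne
      have := hdis i hi j hj hne
      exact (disjoint_left.1 this (hb1 i)) (hij ▸ hb1 j)
    · intro p hp
      by_contra hcon2
      push Not at hcon2
      apply hcon
      refine mem_biUnion.2 ⟨p, hp, ?_⟩
      rw [hbad]
      refine mem_filter.2 ⟨Fintype.mem_piFinset.2 hb1, ?_⟩
      refine lt_of_lt_of_le hcon2 ?_
      have : (I.filter fun i => w + 2 ≤ p ^ fa (b i) p) ⊆
          (I.filter fun i => b i ∈ big (w + 2) p (W i)) := by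
        intro i hi
        obtain ⟨hi1, hi2⟩ := mem_filter.1 hi
        exact mem_filter.2 ⟨hi1, mem_filter.2 ⟨hb1 i, hi2⟩⟩
      exact_mod_cast card_le_card this
  have hbadcard : ∀ p, ((bad p).card : ℝ) ≤ Real.exp (-(2 * (I.card : ℝ))) * P := by
    intro p
    have h1 := card_often W I (fun i => big (w + 2) p (W i)) hH1
      (fun i hi => card_big (by omega) p (hW i hi).2.2) (fun i hi => (hW i hi).1) (δ := δ)
    have h2 : ((bad p).card : ℝ) * (2 * Real.exp 2) ^ I.card ≤ 2 ^ I.card * P := by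
      refine le_trans ?_ h1
      gcongr
    rw [mul_pow] at h2
    have h3 : ((bad p).card : ℝ) * (Real.exp 2) ^ I.card ≤ P := by
      have h4 : (2:ℝ) ^ I.card * (((bad p).card : ℝ) * (Real.exp 2) ^ I.card) ≤
          2 ^ I.card * P := by linarith
      exact le_of_mul_le_mul_left h4 (by positivity)
    have h4 : Real.exp (-(2 * (I.card : ℝ))) * (Real.exp 2) ^ I.card = 1 := by
      rw [← Real.exp_nat_mul, ← Real.exp_add]
      have : -(2 * (I.card : ℝ)) + (I.card : ℝ) * 2 = 0 := by ring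
      rw [this, Real.exp_zero]
    calc ((bad p).card : ℝ) = Real.exp (-(2 * (I.card : ℝ))) *
          (((bad p).card : ℝ) * (Real.exp 2) ^ I.card) := by
          rw [mul_left_comm, h4, mul_one]
      _ ≤ _ := by gcongr
  have hXc : (X.card : ℝ) ≤ ((w : ℝ) + 1) * I.card := by
    have h1 : X.card ≤ ∑ i ∈ I, (W i).card := card_biUnion_le
    have h2 : ∑ i ∈ I, (W i).card ≤ ∑ _i ∈ I, (w + 1) :=
      sum_le_sum fun i hi => card_diam (hW i hi).2.2
    rw [sum_const, smul_eq_mul] at h2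
    have h3 : X.card ≤ I.card * (w + 1) := h1.trans h2
    calc (X.card : ℝ) ≤ ((I.card * (w + 1) : ℕ) : ℝ) := by exact_mod_cast h3
      _ = _ := by push_cast; ring
  have h5 : (((Fintype.piFinset W).filter fun b => ¬ Good ε c I.card (I.image b)).card : ℝ) ≤
      ((dps X).card : ℝ) * (Real.exp (-(2 * (I.card : ℝ))) * P) := by
    have h6 := card_le_card hsub
    have h7 : ((dps X).biUnion bad).card ≤ ∑ p ∈ dps X, (bad p).card := card_biUnion_le
    have h8 : ((∑ p ∈ dps X, (bad p).card : ℕ) : ℝ) ≤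
        ∑ _p ∈ dps X, Real.exp (-(2 * (I.card : ℝ))) * P := by
      rw [Nat.cast_sum]
      exact sum_le_sum fun p _ => hbadcard p
    rw [sum_const, nsmul_eq_mul] at h8
    refine le_trans ?_ h8
    exact_mod_cast h6.trans h7
  have h9 : ((dps X).card : ℝ) ≤ (X.card : ℝ) ^ 2 := by exact_mod_cast card_dps X
  exact h5.trans (final_ineq (Nat.cast_nonneg _) (Nat.cast_nonneg _) (Nat.cast_nonneg _)
    (Nat.cast_nonneg _) hP0 h9 hXc)

end Pool.Agent.K3h46.SS
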