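import Mathlib
import Pool.Agent.K3h46.SS.Core

/-!
# Sets of integers moved by small random amounts
-/

set_option autoImplicit false

namespace Pool.Agent.K3h46.SS

open Finset Pool.Agent.Y359.PE Pool.Agent.R849.SV Pool.Agent.R849.RF
open scoped Classical

lemma AB_mono (A : Finset ℂ) {B B' : Finset ℤ} (h : B ⊆ B') : (AB A B).card ≤ (AB A B').card :=
  card_le_card (image_subset_image (product_subset_product_right h))

/-- a large set of indices with disjoint windows that do not contain zero -/
lemma exists_index {ι : Type} [Fintype ι] (a : ι → ℤ) (ha : Function.Injective a) {R : ℕ}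
    (hR : 1 ≤ R) : ∃ I : Finset ι, Fintype.card ι ≤ R * (I.card + 1) ∧
      (∀ i ∈ I, (0 : ℤ) ∉ Ico (a i) (a i + R)) ∧
      (∀ i ∈ I, ∀ j ∈ I, i ≠ j → Disjoint (Ico (a i) (a i + R)) (Ico (a j) (a j + R))) := by
  have hR0 : (0 : ℤ) < R := by exact_mod_cast hR
  -- the largest residue class
  obtain ⟨ρ, hρ, hcard⟩ : ∃ ρ ∈ range R, Fintype.card ι ≤
      R * (univ.filter fun i => (a i % R).toNat = ρ).card := by
    by_contra hcon
    push Not at hcon
    have h1 : ∀ i ∈ (univ : Finset ι), (a i % R).toNat ∈ range R := by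
      intro i _
      rw [mem_range]
      have h2 := Int.emod_nonneg (a i) hR0.ne'
      have h3 := Int.emod_lt_of_pos (a i) hR0
      omega
    have h2 := card_eq_sum_card_fiberwise h1
    have h3 : R * (univ : Finset ι).card < R * Fintype.card ι := by
      rw [h2, mul_sum]
      calc ∑ ρ ∈ range R, R * (univ.filter fun i => (a i % R).toNat = ρ).card
          < ∑ _ρ ∈ range R, Fintype.card ι := by
            refine sum_lt_sum_of_nonempty ⟨0, mem_range.2 (by omega)⟩ fun ρ hρ => ?_
            exact hcon ρ hρ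
        _ = R * Fintype.card ι := by rw [sum_const, card_range, smul_eq_mul]
    rw [card_univ] at h3
    exact lt_irrefl _ h3
  set I0 := univ.filter fun i => (a i % R).toNat = ρ with hI0
  have hdis : ∀ i ∈ I0, ∀ j ∈ I0, i ≠ j →
      Disjoint (Ico (a i) (a i + R)) (Ico (a j) (a j + R)) := by
    intro i hi j hj hij
    have h1 : (a i % R).toNat = ρ := (mem_filter.1 hi).2
    have h2 : (a j % R).toNat = ρ := (mem_filter.1 hj).2
    have h3 := Int.emod_nonneg (a i) hR0.ne'
    have h4 := Int.emod_nonneg (a j) hR0.ne'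
    have h5 : a i % R = a j % R := by omega
    have h6 : (R : ℤ) ∣ a j - a i := Int.ModEq.dvd h5
    have h7 : a j - a i ≠ 0 := fun h => hij (ha (by omega))
    have h8 := Int.le_of_dvd (abs_pos.2 h7) ((dvd_abs _ _).2 h6)
    rw [disjoint_left]
    intro x hx hy
    rw [mem_Ico] at hx hy
    rcases abs_cases (a j - a i) with h | h <;> omega
  refine ⟨I0.filter fun i => (0 : ℤ) ∉ Ico (a i) (a i + R), ?_, ?_, ?_⟩
  · have h1 : (I0.filter fun i => ¬ (0 : ℤ) ∉ Ico (a i) (a i + R)).card ≤ 1 := by
      refine card_le_one.2 fun i hi j hj => ?_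
      by_contra hij
      obtain ⟨hi1, hi2⟩ := mem_filter.1 hi
      obtain ⟨hj1, hj2⟩ := mem_filter.1 hj
      rw [not_not] at hi2 hj2
      exact disjoint_left.1 (hdis i hi1 j hj1 hij) hi2 hj2
    have h2 := card_filter_add_card_filter_not (s := I0)
      (fun i => (0 : ℤ) ∉ Ico (a i) (a i + R))
    have h3 : I0.card ≤ (I0.filter fun i => (0 : ℤ) ∉ Ico (a i) (a i + R)).card + 1 := by omega
    exact hcard.trans (Nat.mul_le_mul_left _ h3)
  · intro i hi
    exact (mem_filter.1 hi).2
  · intro i hi j hj hij
    exact hdis i (mem_filter.1 hi).1 j (mem_filter.1 hj).1 hij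

/-- **Sets moved by small random amounts.** -/
theorem windows {ε : ℝ} (hε : 0 < ε) (hε1 : ε ≤ 1) : ∃ H : ℕ, 1 ≤ H ∧ ∀ R : ℕ, H ≤ R →
    ∃ c : ℝ, 0 < c ∧ ∃ C : ℝ, 0 < C ∧ ∀ (ι : Type) [Fintype ι] [Nonempty ι] (a : ι → ℤ),
      Function.Injective a →
      (((Fintype.piFinset fun i => Ico (a i) (a i + R)).filter fun b =>
        ¬ (Good ε c (Fintype.card ι) (univ.image b) ∧
          c * (Fintype.card ι : ℝ) ^ (2 - ε) ≤
            (((univ.image b) ×ˢ (univ.image b)).image fun s => s.1 * s.2).card)).card : ℝ) ≤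
        C * Real.exp (-((Fintype.card ι : ℝ) / R)) * (R : ℝ) ^ Fintype.card ι := by
  obtain ⟨H, hH, h⟩ := core (ε := ε / 2) (by linarith) (by linarith)
  refine ⟨H, hH, fun R hR => ?_⟩
  obtain ⟨c0, hc0, C0, hC0, h⟩ := h R
  have hR1 : 1 ≤ R := hH.trans hR
  have hR0 : (0 : ℝ) < R := by exact_mod_cast hR1
  have hR1' : (1 : ℝ) ≤ R := by exact_mod_cast hR1
  set κ : ℝ := 1 / (2 * R) with hκ
  have hκ0 : 0 < κ := by positivity
  have hκ1 : κ ≤ 1 := by
    rw [hκ, div_le_one (by positivity)]
    linarith
  refine ⟨c0 * κ ^ 2, by positivity, (C0 + 1) * Real.exp 1, by positivity, ?_⟩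
  intro ι _ _ a ha
  obtain ⟨I, hI1, hI2, hI3⟩ := exists_index a ha hR1
  have hcardW : ∀ i : ι, (Ico (a i) (a i + R)).card = R := by
    intro i
    rw [Int.card_Ico]
    omega
  have hprod : ∏ i : ι, (((Ico (a i) (a i + R)).card : ℕ) : ℝ) = (R : ℝ) ^ Fintype.card ι := by
    simp only [hcardW]
    rw [prod_const, card_univ]
  have hn1 : (1 : ℝ) ≤ Fintype.card ι := by
    have : 1 ≤ Fintype.card ι := Fintype.card_pos
    exact_mod_cast this
  have hI1' : (Fintype.card ι : ℝ) ≤ R * (I.card + 1) := by exact_mod_cast hI1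
  have hdivR : (Fintype.card ι : ℝ) / R ≤ I.card + 1 := by
    rw [div_le_iff₀ hR0]
    linarith
  rcases I.eq_empty_or_nonempty with hIe | hIne
  · -- few elements
    have h1 : (((Fintype.piFinset fun i => Ico (a i) (a i + R)).filter fun b =>
        ¬ (Good ε (c0 * κ ^ 2) (Fintype.card ι) (univ.image b) ∧
          c0 * κ ^ 2 * (Fintype.card ι : ℝ) ^ (2 - ε) ≤
            (((univ.image b) ×ˢ (univ.image b)).image fun s => s.1 * s.2).card)).card : ℝ) ≤
        (R : ℝ) ^ Fintype.card ι := by
      rw [← hprod]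
      have h2 := card_le_card (filter_subset (fun b =>
        ¬ (Good ε (c0 * κ ^ 2) (Fintype.card ι) (univ.image b) ∧
          c0 * κ ^ 2 * (Fintype.card ι : ℝ) ^ (2 - ε) ≤
            (((univ.image b) ×ˢ (univ.image b)).image fun s => s.1 * s.2).card))
        (Fintype.piFinset fun i => Ico (a i) (a i + R)))
      rw [Fintype.card_piFinset (fun i => Ico (a i) (a i + (R : ℤ)))] at h2
      exact_mod_cast h2
    refine h1.trans ?_
    rw [hIe, card_empty, Nat.cast_zero, zero_add] at hdivR
    have h3 : 1 ≤ (C0 + 1) * Real.exp 1 * Real.exp (-((Fintype.card ι : ℝ) / R)) := by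
      rw [mul_assoc, ← Real.exp_add]
      have h4 : 1 ≤ Real.exp (1 + -((Fintype.card ι : ℝ) / R)) :=
        Real.one_le_exp (by linarith)
      nlinarith
    exact le_mul_of_one_le_left (by positivity) h3
  · have hIc : (1 : ℝ) ≤ I.card := by exact_mod_cast card_pos.2 hIne
    have hIn : κ * (Fintype.card ι : ℝ) ≤ I.card := by
      rw [hκ, one_div, inv_mul_le_iff₀ (by positivity)]
      nlinarith
    have h1 := h ι I (fun i => Ico (a i) (a i + R)) hIne (fun i hi => by
      refine ⟨by rw [hcardW]; exact hR, hI2 i hi, ?_⟩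
      intro x hx y hy
      rw [mem_Ico] at hx hy
      rw [abs_le]
      constructor <;> omega) hI3
    rw [hprod] at h1
    have h2 : ((Fintype.piFinset fun i => Ico (a i) (a i + R)).filter fun b =>
        ¬ (Good ε (c0 * κ ^ 2) (Fintype.card ι) (univ.image b) ∧
          c0 * κ ^ 2 * (Fintype.card ι : ℝ) ^ (2 - ε) ≤
            (((univ.image b) ×ˢ (univ.image b)).image fun s => s.1 * s.2).card)) ⊆
        ((Fintype.piFinset fun i => Ico (a i) (a i + R)).filter fun b =>
          ¬ Good (ε / 2) c0 I.card (I.image b)) := by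
      intro b hb
      obtain ⟨hb1, hb2⟩ := mem_filter.1 hb
      refine mem_filter.2 ⟨hb1, fun hg => hb2 ?_⟩
      rw [Fintype.mem_piFinset] at hb1
      have hsub : I.image b ⊆ univ.image b := image_subset_image (subset_univ _)
      have hinj : Set.InjOn b I := by
        intro i hi j hj hij
        by_contra hne
        exact disjoint_left.1 (hI3 i hi j hj hne) (hb1 i) (hij ▸ hb1 j)
      have hz : (0 : ℤ) ∉ I.image b := by
        intro hz
        obtain ⟨i, hi, hi2⟩ := mem_image.1 hz
        exact hI2 i hi (hi2 ▸ hb1 i)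
      have hcI : (I.image b).card = I.card := card_image_of_injOn hinj
      constructor
      · intro A hA hA0
        have hA1 : (1 : ℝ) ≤ A.card := by exact_mod_cast card_pos.2 hA
        have h3 := hg A hA hA0
        have h4 : ((AB A (I.image b)).card : ℝ) ≤ (AB A (univ.image b)).card := by
          exact_mod_cast AB_mono A hsub
        refine le_trans ?_ (h3.trans h4)
        have h5 : κ * ((A.card : ℝ) * Fintype.card ι) ≤ (A.card : ℝ) * I.card := by nlinarith
        have hAn : 1 ≤ (A.card : ℝ) * Fintype.card ι := by nlinarith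
        calc c0 * κ ^ 2 * ((A.card : ℝ) * Fintype.card ι) ^ (1 - ε)
            ≤ c0 * κ ^ (1 - ε / 2) * ((A.card : ℝ) * Fintype.card ι) ^ (1 - ε / 2) := by
              have e1 : κ ^ 2 ≤ κ ^ (1 - ε / 2) := by
                rw [← Real.rpow_natCast]
                exact Real.rpow_le_rpow_of_exponent_ge hκ0 hκ1 (by push_cast; linarith)
              have e2 : ((A.card : ℝ) * Fintype.card ι) ^ (1 - ε) ≤
                  ((A.card : ℝ) * Fintype.card ι) ^ (1 - ε / 2) :=
                Real.rpow_le_rpow_of_exponent_le hAn (by linarith)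
              gcongr
          _ = c0 * (κ * ((A.card : ℝ) * Fintype.card ι)) ^ (1 - ε / 2) := by
              rw [Real.mul_rpow hκ0.le (by positivity)]
              ring
          _ ≤ c0 * ((A.card : ℝ) * I.card) ^ (1 - ε / 2) := by
              have : 0 ≤ 1 - ε / 2 := by linarith
              gcongr
      · have hA0 : (0 : ℂ) ∉ ci (I.image b) := ci_zero hz
        have hAne : (ci (I.image b)).Nonempty := (hIne.image b).image _
        have h3 := hg (ci (I.image b)) hAne hA0
        have hci : (ci (I.image b)).card = I.card := by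
          unfold ci
          rw [card_image_of_injective _ Int.cast_injective, hcI]
        have h4 : AB (ci (I.image b)) (I.image b) ⊆
            (((univ.image b) ×ˢ (univ.image b)).image fun s => s.1 * s.2).image
              fun z : ℤ => (z : ℂ) := by
          intro z hz
          obtain ⟨s, hs, rfl⟩ := mem_image.1 hz
          rw [mem_product] at hs
          obtain ⟨x, hx, hx2⟩ := mem_image.1 hs.1
          refine mem_image.2 ⟨x * s.2, mem_image.2 ⟨(x, s.2), mem_product.2
            ⟨hsub hx, hsub hs.2⟩, rfl⟩, ?_⟩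
          rw [← hx2]
          push_cast
          rfl
        have h5 : ((AB (ci (I.image b)) (I.image b)).card : ℝ) ≤
            (((univ.image b) ×ˢ (univ.image b)).image fun s => s.1 * s.2).card := by
          exact_mod_cast (card_le_card h4).trans card_image_le
        refine le_trans ?_ (h3.trans h5)
        rw [hci]
        have hI0 : (0:ℝ) ≤ I.card := by linarith
        calc c0 * κ ^ 2 * (Fintype.card ι : ℝ) ^ (2 - ε)
            ≤ c0 * κ ^ (2 - ε) * (Fintype.card ι : ℝ) ^ (2 - ε) := by
              have e1 : κ ^ 2 ≤ κ ^ (2 - ε) := by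
                rw [← Real.rpow_natCast]
                exact Real.rpow_le_rpow_of_exponent_ge hκ0 hκ1 (by push_cast; linarith)
              gcongr
          _ = c0 * (κ * (Fintype.card ι : ℝ)) ^ (2 - ε) := by
              rw [Real.mul_rpow hκ0.le (by positivity)]
              ring
          _ ≤ c0 * (I.card : ℝ) ^ (2 - ε) := by
              have : 0 ≤ 2 - ε := by linarith
              gcongr
          _ = c0 * ((I.card : ℝ) * I.card) ^ (1 - ε / 2) := by
              rw [← sq, ← Real.rpow_natCast, ← Real.rpow_mul hI0]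
              congr 2
              push_cast
              ring
    calc (((Fintype.piFinset fun i => Ico (a i) (a i + R)).filter fun b =>
        ¬ (Good ε (c0 * κ ^ 2) (Fintype.card ι) (univ.image b) ∧
          c0 * κ ^ 2 * (Fintype.card ι : ℝ) ^ (2 - ε) ≤
            (((univ.image b) ×ˢ (univ.image b)).image fun s => s.1 * s.2).card)).card : ℝ)
        ≤ (((Fintype.piFinset fun i => Ico (a i) (a i + R)).filter fun b =>
          ¬ Good (ε / 2) c0 I.card (I.image b)).card : ℝ) := by
          exact_mod_cast card_le_card h2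
      _ ≤ C0 * Real.exp (-(I.card : ℝ)) * (R : ℝ) ^ Fintype.card ι := h1
      _ ≤ (C0 + 1) * Real.exp 1 * Real.exp (-((Fintype.card ι : ℝ) / R)) *
            (R : ℝ) ^ Fintype.card ι := by
          have e1 : Real.exp (-(I.card : ℝ)) ≤
              Real.exp 1 * Real.exp (-((Fintype.card ι : ℝ) / R)) := by
            rw [← Real.exp_add]
            exact Real.exp_le_exp.2 (by linarith)
          have e2 : C0 * Real.exp (-(I.card : ℝ)) ≤
              (C0 + 1) * (Real.exp 1 * Real.exp (-((Fintype.card ι : ℝ) / R))) := by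
            gcongr
            linarith
          calc _ ≤ (C0 + 1) * (Real.exp 1 * Real.exp (-((Fintype.card ι : ℝ) / R))) *
                (R : ℝ) ^ Fintype.card ι := by gcongr
            _ = _ := by ring

end Pool.Agent.K3h46.SS
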